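import Pool.Agent.helper7.PQ.Spec

/-! Row pq:JGC (MP_ebc808_nt) -/

set_option autoImplicit false

open Finset PowerSeries

noncomputable section

namespace Pool.Agent.PQ

open Pool.Agent.EP

theorem JGC : JGC_stmt := by
  intro j m hj hm hc
  unfold JG
  have h1 : j.divisors.filter (fun d : ℕ => (d : ℤ) ∣ (m : ℤ)) = {1} := by
    ext d
    rw [Finset.mem_filter, Nat.mem_divisors, Finset.mem_singleton]
    constructor
    · rintro ⟨⟨h2, -⟩, h3⟩
      have h4 : d ∣ m := by exact_mod_cast h3
      exact Nat.eq_one_of_dvd_coprimes hc h2 h4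
    · rintro rfl
      exact ⟨⟨one_dvd _, hj.ne'⟩, by simp⟩
  rw [h1, Finset.sum_singleton]
  simp

end Pool.Agent.PQ
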