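import Pool.Agent.helper7.PQ.Spec

/-! Row pq:NR (MP_ebc808_nt) -/

set_option autoImplicit false

open Finset PowerSeries

noncomputable section

namespace Pool.Agent.PQ

open Pool.Agent.EP

theorem NR : NR_stmt := by
  intro q b N u hq hq8 hb hN hlt hdvd
  have : Fact q.Prime := ⟨hq⟩
  have hq2 : q ≠ 2 := by
    rintro rfl
    norm_num at hq8
  obtain ⟨s, hs⟩ := (ZMod.exists_sq_eq_two_iff hq2).2 (Or.inr hq8)
  have h1 : ((N + 1 : ℕ) : ZMod q) = 0 := (ZMod.natCast_eq_zero_iff _ _).2 hN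
  have h2 : ((N - 2 ^ b * u ^ 2 : ℕ) : ZMod q) = 0 := (ZMod.natCast_eq_zero_iff _ _).2 hdvd
  rw [Nat.cast_sub hlt.le] at h2
  push_cast at h1 h2
  obtain ⟨m, hm⟩ : ∃ m, b = 2 * m + 1 := ⟨b / 2, by omega⟩
  have h3 : IsSquare (-1 : ZMod q) := by
    refine ⟨2 ^ m * s * u, ?_⟩
    have h4 : (-1 : ZMod q) = 2 ^ b * (u : ZMod q) ^ 2 := by linear_combination h2 - h1
    have h5 : (2 : ZMod q) ^ b = (2 ^ m) ^ 2 * (s * s) := by
      rw [← hs, hm, pow_succ, mul_comm 2 m, pow_mul]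
    rw [h4, h5]
    ring
  exact (ZMod.exists_sq_eq_neg_one_iff.1 h3) (by omega)

end Pool.Agent.PQ
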